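import Mathlib

set_option autoImplicit false
set_option maxHeartbeats 800000

namespace Pool.Agent.Results.MP_f07b17_co.Lower

open Finset

/-- The 3-graph with edge set `E` contains no copy of the Fano plane. -/
def FanoFree {V : Type} [DecidableEq V] (E : Finset (Finset V)) : Prop :=
  ¬∃ f : (Fin 3 → ZMod 2) → V, Set.InjOn f {x | x ≠ 0} ∧
    ∀ x y, x ≠ 0 → y ≠ 0 → x ≠ y → ({f x, f y, f (x + y)} : Finset V) ∈ E

/-- The vertices split into two parts so that every edge meets both. -/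
def Bip {V : Type} (E : Finset (Finset V)) : Prop :=
  ∃ X : Set V, ∀ e ∈ E, (∃ x ∈ e, x ∈ X) ∧ ∃ y ∈ e, y ∉ X

/-- Every large Fano-free 3-graph with minimum degree above `c * C(n,2)` is bipartite. -/
def P (c : ℝ) : Prop :=
  ∃ n0 : ℕ, ∀ (V : Type) [Fintype V] [DecidableEq V] (E : Finset (Finset V)),
    n0 ≤ Fintype.card V → (∀ e ∈ E, e.card = 3) → FanoFree E →
    (∀ v, c * ((Fintype.card V).choose 2 : ℝ) < ((E.filter (v ∈ ·)).card : ℝ)) → Bip E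

def ok (p q r : Fin 4) : Bool :=
  if p = 0 then (if q = 0 then r = 0 else r ≠ 0 ∧ q ≠ r)
  else if q = 0 then r ≠ 0 ∧ p ≠ r else if r = 0 then p ≠ q
  else (p = 1 ∨ q = 1 ∨ r = 1) ∧ (p ≠ 1 ∨ q ≠ 1 ∨ r ≠ 1)

def bl (i : Fin 24) : Fin 4 := if i.1 < 10 then 1 else if i.1 < 17 then 2 else 3

def cl {m : ℕ} : Fin 3 ⊕ Fin 24 × Fin m → Fin 4 := Sum.elim (fun _ => 0) fun p => bl p.1

theorem sym : ∀ p q r : Fin 4, ok p q r = true → ok p r q = true ∧ ok q p r = true ∧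
    ok q r p = true ∧ ok r p q = true ∧ ok r q p = true := by decide +kernel

theorem fano : ∀ a b c d e f g : Fin 4, ok a b c = true → ok a d e = true → ok b d f = true →
    ok c d g = true → ok a f g = true → ok b e g = true → ok c e f = true →
    a = 0 ∧ b = 0 ∧ c = 0 ∧ d = 0 := by decide +kernel

theorem cnt : ∀ p : Fin 4,
    378 ≤ ((univ : Finset (Fin 24 × Fin 24)).filter fun q => ok p (bl q.1) (bl q.2) = true).card := by
  decide +kernel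

def Ed (m : ℕ) : Finset (Finset (Fin 3 ⊕ Fin 24 × Fin m)) :=
  univ.filter fun e => ∃ x y z, x ≠ y ∧ x ≠ z ∧ y ≠ z ∧ e = {x, y, z} ∧ ok (cl x) (cl y) (cl z) = true

theorem mem_Ed {m : ℕ} {x y z : Fin 3 ⊕ Fin 24 × Fin m} (h1 : x ≠ y) (h2 : x ≠ z) (h3 : y ≠ z) :
    {x, y, z} ∈ Ed m ↔ ok (cl x) (cl y) (cl z) = true := by
  simp only [Ed, mem_filter, mem_univ, true_and]
  refine ⟨fun ⟨a, b, c, _, _, _, e, h⟩ => ?_, fun h => ⟨x, y, z, h1, h2, h3, rfl, h⟩⟩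
  have hx : x ∈ ({a, b, c} : Finset _) := e ▸ by simp
  have hy : y ∈ ({a, b, c} : Finset _) := e ▸ by simp
  have hz : z ∈ ({a, b, c} : Finset _) := e ▸ by simp
  obtain ⟨s1, s2, s3, s4, s5⟩ := sym _ _ _ h
  simp only [mem_insert, mem_singleton] at hx hy hz
  rcases hx with rfl | rfl | rfl <;> rcases hy with rfl | rfl | rfl <;>
    rcases hz with rfl | rfl | rfl <;> first | contradiction | assumption

theorem c3 {m : ℕ} : ∀ e ∈ Ed m, e.card = 3 := fun e he => by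
  obtain ⟨x, y, z, h1, h2, h3, rfl, -⟩ := (mem_filter.1 he).2
  exact card_eq_three.2 ⟨x, y, z, h1, h2, h3, rfl⟩

theorem free (m : ℕ) : FanoFree (Ed m) := by
  rintro ⟨f, fi, h⟩
  have k : ∀ x y z : Fin 3 → ZMod 2, x ≠ 0 ∧ y ≠ 0 ∧ z ≠ 0 ∧ x ≠ y ∧ x ≠ z ∧ y ≠ z ∧ x + y = z →
      ok (cl (f x)) (cl (f y)) (cl (f z)) = true := by
    rintro x y z ⟨a, b, c, d, e, g, rfl⟩
    exact (mem_Ed (fi.ne a b d) (fi.ne a c e) (fi.ne b c g)).1 (h x y a b d)
  obtain ⟨a, b, c, d⟩ := fano _ _ _ _ _ _ _ (k ![1, 0, 0] ![0, 1, 0] ![1, 1, 0] (by decide))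
    (k ![1, 0, 0] ![0, 0, 1] ![1, 0, 1] (by decide)) (k ![0, 1, 0] ![0, 0, 1] ![0, 1, 1] (by decide))
    (k ![1, 1, 0] ![0, 0, 1] ![1, 1, 1] (by decide)) (k ![1, 0, 0] ![0, 1, 1] ![1, 1, 1] (by decide))
    (k ![0, 1, 0] ![1, 0, 1] ![1, 1, 1] (by decide)) (k ![1, 1, 0] ![1, 0, 1] ![0, 1, 1] (by decide))
  have z : ∀ v : Fin 3 ⊕ Fin 24 × Fin m, cl v = 0 → ∃ i, v = Sum.inl i := by
    rintro (i | ⟨i, j⟩) h
    · exact ⟨i, rfl⟩
    · exact absurd h ((by decide : ∀ i, bl i ≠ 0) i)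
  obtain ⟨a, ha⟩ := z _ a
  obtain ⟨b, hb⟩ := z _ b
  obtain ⟨c, hc⟩ := z _ c
  obtain ⟨d, hd⟩ := z _ d
  have q : ∀ {x y : Fin 3 → ZMod 2} {i j : Fin 3}, f x = Sum.inl i → f y = Sum.inl j →
      x ≠ 0 ∧ y ≠ 0 ∧ x ≠ y → i ≠ j := fun h1 h2 h e =>
    fi.ne h.1 h.2.1 h.2.2 (by rw [h1, h2, e])
  have := q ha hb (by decide)
  have := q ha hc (by decide)
  have := q ha hd (by decide)
  have := q hb hc (by decide)
  have := q hb hd (by decide)
  have := q hc hd (by decide)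
  omega

theorem nb (m : ℕ) : ¬Bip (Ed (m + 1)) := by
  rintro ⟨X, h⟩
  obtain ⟨⟨s, s1, s2⟩, t, t1, t2⟩ := h {Sum.inl 0, Sum.inl 1, Sum.inl 2}
    ((mem_Ed (by simp) (by simp) (by simp)).2 rfl)
  have k : ∀ (u : Fin 3) (i j : Fin 24), ok 0 (bl i) (bl j) = true ∧ i ≠ j →
      (Sum.inl u ∈ X ∨ Sum.inr (i, 0) ∈ X ∨ Sum.inr (j, 0) ∈ X) ∧
      (Sum.inl u ∉ X ∨ Sum.inr (i, 0) ∉ X ∨ Sum.inr (j, 0) ∉ X) := fun u i j c => by
    simpa using h {Sum.inl u, Sum.inr (i, 0), Sum.inr (j, 0)}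
      ((mem_Ed (by simp) (by simp) (by simp [c.2])).2 c.1)
  obtain ⟨s, rfl⟩ : ∃ i, s = Sum.inl i := by
    simp only [mem_insert, mem_singleton] at s1; rcases s1 with h | h | h <;> exact ⟨_, h⟩
  obtain ⟨t, rfl⟩ : ∃ i, t = Sum.inl i := by
    simp only [mem_insert, mem_singleton] at t1; rcases t1 with h | h | h <;> exact ⟨_, h⟩
  have a1 := (k s 0 10 (by decide)).2
  have a2 := (k s 0 20 (by decide)).2
  have a3 := (k s 10 20 (by decide)).2
  have b1 := (k t 0 10 (by decide)).1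
  have b2 := (k t 0 20 (by decide)).1
  have b3 := (k t 10 20 (by decide)).1
  tauto

theorem deg (m : ℕ) (v : Fin 3 ⊕ Fin 24 × Fin m) :
    378 * (m * m) ≤ 2 * ((Ed m).filter (v ∈ ·)).card + 3 * (3 + 24 * m) := by
  obtain ⟨T, hT⟩ : ∃ T, T = (univ : Finset ((Fin 3 ⊕ Fin 24 × Fin m) × (Fin 3 ⊕ Fin 24 × Fin m))).filter
    fun q => ok (cl v) (cl q.1) (cl q.2) = true := ⟨_, rfl⟩
  have h1 : 378 * (m * m) ≤ T.card := by
    have := card_le_card_of_injOn (s := ((univ : Finset (Fin 24 × Fin 24)).filter fun q =>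
      ok (cl v) (bl q.1) (bl q.2) = true) ×ˢ (univ : Finset (Fin m × Fin m))) (t := T)
      (fun q => (Sum.inr (q.1.1, q.2.1), Sum.inr (q.1.2, q.2.2)))
      (fun q hq => by rw [hT]; simpa [cl] using hq)
      (fun ⟨⟨a, b⟩, c, d⟩ _ ⟨⟨a', b'⟩, c', d'⟩ _ h => by simp only [Prod.mk.injEq, Sum.inr.injEq] at h ⊢; tauto)
    rw [card_product, card_univ, Fintype.card_prod, Fintype.card_fin] at this
    exact (Nat.mul_le_mul_right _ (cnt (cl v))).trans this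
  have h2 : (T.filter fun q => v ≠ q.1 ∧ v ≠ q.2 ∧ q.1 ≠ q.2).card ≤
      2 * ((Ed m).filter (v ∈ ·)).card := by
    refine card_le_mul_card_image_of_maps_to (f := fun q => {v, q.1, q.2}) (fun q hq => ?_) 2
      fun e he => ?_
    · simp only [hT, mem_filter, mem_univ, true_and] at hq
      exact mem_filter.2 ⟨(mem_Ed hq.2.1 hq.2.2.1 hq.2.2.2).2 hq.1, by simp⟩
    · rw [mem_filter] at he
      refine (card_le_card (t := (e.erase v).offDiag) fun q hq => ?_).trans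
        (by rw [offDiag_card, card_erase_of_mem he.2, c3 e he.1])
      simp only [mem_filter] at hq
      obtain ⟨⟨-, a, b, c⟩, rfl⟩ := hq
      simp [mem_offDiag, a.symm, b.symm, c]
  have h3 : (T.filter fun q => ¬(v ≠ q.1 ∧ v ≠ q.2 ∧ q.1 ≠ q.2)).card ≤ 3 * (3 + 24 * m) := by
    refine (card_le_card (t := univ.image (fun y => (v, y)) ∪ univ.image (fun y => (y, v)) ∪
      univ.image (fun y => (y, y))) fun ⟨a, b⟩ hq => ?_).trans ((card_union_le _ _).trans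
      ((add_le_add ((card_union_le _ _).trans (add_le_add card_image_le card_image_le))
        card_image_le).trans (by simp; omega)))
    have := (mem_filter.1 hq).2
    simp only [mem_union, mem_image, mem_univ, true_and, Prod.mk.injEq]
    by_cases c1 : v = a
    · exact Or.inl (Or.inl ⟨b, c1, rfl⟩)
    by_cases c2 : v = b
    · exact Or.inl (Or.inr ⟨a, rfl, c2⟩)
    · exact Or.inr ⟨a, rfl, by_contra fun c3 => this ⟨c1, c2, c3⟩⟩
  have := card_filter_add_card_filter_not (s := T) fun q => v ≠ q.1 ∧ v ≠ q.2 ∧ q.1 ≠ q.2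
  omega

theorem result (c : ℝ) (h : P c) : 21 / 32 ≤ c := by
  by_contra hc
  rw [not_le] at hc
  obtain ⟨n0, h⟩ := h
  obtain ⟨k, hk⟩ := exists_nat_gt (1 / (21 / 32 - c))
  rw [div_lt_iff₀ (by linarith)] at hk
  have e : Fintype.card (Fin 3 ⊕ Fin 24 × Fin (n0 + k + 1)) = 3 + 24 * (n0 + k + 1) := by simp
  refine nb (n0 + k) (h _ (Ed (n0 + k + 1)) (by omega) c3 (free _) fun v => ?_)
  have d : (378 * ((n0 + k + 1 : ℕ) * (n0 + k + 1 : ℕ)) : ℝ) ≤
      2 * (((Ed (n0 + k + 1)).filter (v ∈ ·)).card : ℝ) + 3 * (3 + 24 * (n0 + k + 1 : ℕ)) := by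
    exact_mod_cast deg (n0 + k + 1) v
  rw [e, Nat.cast_choose_two]
  have m1 : (k : ℝ) + 1 ≤ (n0 + k + 1 : ℕ) := by push_cast; linarith [Nat.cast_nonneg (α := ℝ) n0]
  have k0 := Nat.cast_nonneg (α := ℝ) k
  rw [Nat.cast_add, Nat.cast_mul]
  generalize ((n0 + k + 1 : ℕ) : ℝ) = M at d m1
  push_cast
  have a : 1 < M * (21 / 32 - c) := by nlinarith
  have b : 0 < M := by linarith
  nlinarith [mul_pos b (sub_pos.2 a), mul_pos b (sub_pos.2 hc)]

end Pool.Agent.Results.MP_f07b17_co.Lower
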